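import Mathlib

/-!
NF-complexes, the NF-number and the dumbbell graphs.
-/

namespace Q137.NF

/-- `F` is a facet (inclusion-maximal face) of `Δ`. -/
def IsFacet {V : Type} (Δ : Set (Finset V)) (F : Finset V) : Prop :=
  F ∈ Δ ∧ ∀ G ∈ Δ, F ⊆ G → F = G

/-- The NF-complex of `Δ`: the subsets of the vertex set `V` that contain no facet of `Δ`. -/
def delta {V : Type} (Δ : Set (Finset V)) : Set (Finset V) :=
  {F | ∀ G, IsFacet Δ G → ¬ G ⊆ F}

/-- Two complexes on the vertex sets `V` and `W` are isomorphic. -/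
def Iso {V W : Type} (Δ : Set (Finset V)) (Γ : Set (Finset W)) : Prop :=
  ∃ π : V ≃ W, ∀ F : Finset V, F ∈ Δ ↔ F.map π.toEmbedding ∈ Γ

/-- The NF-number of `Δ`: the least `q > 0` such that the `q`-th iterate `δ^(q)(Δ)` is isomorphic
to `Δ`. -/
noncomputable def NFnumber {V : Type} (Δ : Set (Finset V)) : ℕ :=
  sInf {q : ℕ | 0 < q ∧ Iso (delta^[q] Δ) Δ}

/-- The simplicial complex of a graph (without isolated vertices): its faces are the subsets of
the edges. -/
def graphComplex {V : Type} (G : SimpleGraph V) : Set (Finset V) :=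
  {F | ∃ u v : V, G.Adj u v ∧ ∀ w ∈ F, w = u ∨ w = v}

/-- The dumbbell graph `B_{n,m}` on the vertex set `Fin n ⊕ Fin m`: a complete graph on each of
the two parts, and one edge that joins the vertex number `0` of the first part to the vertex
number `0` of the second part. -/
def dumbbell (n m : ℕ) : SimpleGraph (Fin n ⊕ Fin m) where
  Adj u v :=
    match u, v with
    | .inl i, .inl j => i ≠ j
    | .inr i, .inr j => i ≠ j
    | .inl i, .inr j => (i : ℕ) = 0 ∧ (j : ℕ) = 0
    | .inr j, .inl i => (i : ℕ) = 0 ∧ (j : ℕ) = 0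
  symm := ⟨by
    rintro (i | i) (j | j) h
    · exact Ne.symm h
    · exact h
    · exact h
    · exact Ne.symm h⟩
  loopless := ⟨by
    rintro (i | i) h
    · exact h rfl
    · exact h rfl⟩

end Q137.NF
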