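import Mathlib
import Pool.Agent.Q137.NF.Defs

/-!
The NF-complex of a complex whose faces are described by the numbers of vertices of each type.
-/

namespace Q137.NF

open Finset

variable {V : Type} [Fintype V] [DecidableEq V] {t : ℕ}

/-- The number of vertices of each type. -/
def prof (τ : V → Fin t) (F : Finset V) : Fin t → ℕ := fun i => (F.filter (fun v => τ v = i)).card

omit [Fintype V] in
theorem prof_insert (τ : V → Fin t) {F : Finset V} {w : V} (hw : w ∉ F) :
    prof τ (insert w F) = Function.update (prof τ F) (τ w) (prof τ F (τ w) + 1) := by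
  funext i
  unfold prof
  rw [filter_insert]
  by_cases h : τ w = i
  · subst h
    rw [if_pos rfl, card_insert_of_notMem (by simp [hw]), Function.update_self]
  · rw [if_neg h, Function.update_of_ne (Ne.symm h)]

omit [Fintype V] in
theorem prof_erase (τ : V → Fin t) {F : Finset V} {w : V} (hw : w ∈ F) :
    prof τ (F.erase w) = Function.update (prof τ F) (τ w) (prof τ F (τ w) - 1) := by
  have h := prof_insert τ (notMem_erase w F)
  rw [insert_erase hw] at h
  funext i
  rw [h]
  by_cases hi : i = τ w
  · subst hi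
    simp
  · simp [Function.update_of_ne hi]

omit [Fintype V] [DecidableEq V] in
theorem prof_mono (τ : V → Fin t) {F G : Finset V} (h : F ⊆ G) : prof τ F ≤ prof τ G :=
  fun _ => card_le_card (filter_subset_filter _ h)

omit [DecidableEq V] in
theorem prof_le (τ : V → Fin t) (F : Finset V) : prof τ F ≤ prof τ univ :=
  prof_mono τ (subset_univ F)

/-- The family of the sets whose profile satisfies `R`. -/
def fam (τ : V → Fin t) (R : (Fin t → ℕ) → Prop) : Set (Finset V) := {F | R (prof τ F)}

omit [Fintype V] [DecidableEq V] in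
theorem mem_fam {τ : V → Fin t} {R : (Fin t → ℕ) → Prop} {F : Finset V} :
    F ∈ fam τ R ↔ R (prof τ F) := Iff.rfl

theorem exists_notMem_of_lt (τ : V → Fin t) {F : Finset V} {i : Fin t}
    (h : prof τ F i < prof τ univ i) : ∃ w, w ∉ F ∧ τ w = i := by
  by_contra hcon
  push Not at hcon
  apply absurd h
  rw [not_lt]
  apply card_le_card
  intro v hv
  simp only [mem_filter, mem_univ, true_and] at hv ⊢
  refine ⟨?_, hv⟩
  by_contra hvF
  exact hcon v hvF hv

omit [Fintype V] [DecidableEq V] in
theorem exists_mem_of_pos (τ : V → Fin t) {F : Finset V} {i : Fin t}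
    (h : 0 < prof τ F i) : ∃ w, w ∈ F ∧ τ w = i := by
  obtain ⟨w, hw⟩ := card_pos.1 h
  rw [mem_filter] at hw
  exact ⟨w, hw.1, hw.2⟩

/-- `R` is closed under going down inside the box `p ≤ s`. -/
def DownIn (s : Fin t → ℕ) (R : (Fin t → ℕ) → Prop) : Prop :=
  ∀ p q : Fin t → ℕ, p ≤ s → q ≤ p → R p → R q

/-- The numerical conditions that say that `R'` describes the NF-complex of the complex described
by `R`. -/
structure Step (s : Fin t → ℕ) (R R' : (Fin t → ℕ) → Prop) : Prop where
  down : DownIn s R
  down' : DownIn s R'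
  max : ∀ p : Fin t → ℕ, p ≤ s → R p →
    (∀ i, p i < s i → ¬ R (Function.update p i (p i + 1))) → ¬ R' p
  min : ∀ p : Fin t → ℕ, p ≤ s → ¬ R' p →
    (∀ i, 0 < p i → R' (Function.update p i (p i - 1))) →
      R p ∧ ∀ i, p i < s i → ¬ R (Function.update p i (p i + 1))

theorem isFacet_iff (τ : V → Fin t) {R : (Fin t → ℕ) → Prop}
    (hR : DownIn (prof τ univ) R) (G : Finset V) :
    IsFacet (fam τ R) G ↔ R (prof τ G) ∧ ∀ i, prof τ G i < prof τ univ i →
      ¬ R (Function.update (prof τ G) i (prof τ G i + 1)) := by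
  constructor
  · rintro ⟨h1, h2⟩
    refine ⟨h1, fun i hi hcon => ?_⟩
    obtain ⟨w, hw, rfl⟩ := exists_notMem_of_lt τ hi
    rw [← prof_insert τ hw] at hcon
    have h3 := h2 _ hcon (subset_insert w G)
    exact hw (h3 ▸ mem_insert_self w G)
  · rintro ⟨h1, h2⟩
    refine ⟨h1, fun H hH hGH => ?_⟩
    by_contra hne
    obtain ⟨w, hwH, hwG⟩ := exists_of_ssubset (hGH.ssubset_of_ne hne)
    have h3 : insert w G ⊆ H := insert_subset hwH hGH
    have h4 : R (prof τ (insert w G)) := hR _ _ (prof_le τ H) (prof_mono τ h3) hH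
    have h5 : prof τ G (τ w) < prof τ univ (τ w) := by
      have h6 : prof τ (insert w G) (τ w) ≤ prof τ univ (τ w) := prof_le τ (insert w G) (τ w)
      rw [prof_insert τ hwG, Function.update_self] at h6
      omega
    apply h2 _ h5
    rw [← prof_insert τ hwG]
    exact h4

theorem delta_fam (τ : V → Fin t) {R R' : (Fin t → ℕ) → Prop}
    (h : Step (prof τ univ) R R') : delta (fam τ R) = fam τ R' := by
  ext F
  constructor
  · intro hF
    by_contra hcon
    -- take a minimal subset of `F` outside `fam τ R'`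
    obtain ⟨G, hG, hmin⟩ : ∃ G, (G ⊆ F ∧ G ∉ fam τ R') ∧
        ∀ H, (H ⊆ F ∧ H ∉ fam τ R') → ¬ H ⊂ G := by
      have hne : {G : Finset V | G ⊆ F ∧ G ∉ fam τ R'}.Nonempty := ⟨F, Subset.refl F, hcon⟩
      have wf : WellFounded (fun G H : Finset V => G ⊂ H) := Finset.isWellFounded_ssubset.wf
      refine ⟨wf.min _ hne, wf.min_mem _ hne, fun H hH => ?_⟩
      exact wf.not_lt_min _ hH
    have hp : ∀ i, 0 < prof τ G i → R' (Function.update (prof τ G) i (prof τ G i - 1)) := by
      intro i hi
      obtain ⟨w, hw, rfl⟩ := exists_mem_of_pos τ hi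
      rw [← prof_erase τ hw]
      by_contra hcon2
      exact hmin (G.erase w) ⟨(erase_subset w G).trans hG.1, hcon2⟩ (erase_ssubset hw)
    have h3 := h.min _ (prof_le τ G) hG.2 hp
    exact hF G ((isFacet_iff τ h.down G).2 h3) hG.1
  · intro hF G hG hGF
    have h3 := (isFacet_iff τ h.down G).1 hG
    have h4 := h.max _ (prof_le τ G) h3.1 h3.2
    exact h4 (h.down' _ _ (prof_le τ F) (prof_mono τ hGF) hF)

/-- Every profile in the box is the profile of a set. -/
theorem exists_prof (τ : V → Fin t) (p : Fin t → ℕ) (hp : p ≤ prof τ univ) :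
    ∃ F : Finset V, prof τ F = p := by
  have h : ∀ i, ∃ A ⊆ (univ : Finset V).filter (fun v => τ v = i), A.card = p i :=
    fun i => exists_subset_card_eq (hp i)
  choose A hA hc using h
  refine ⟨univ.biUnion A, ?_⟩
  funext i
  unfold prof
  rw [← hc i]
  congr 1
  ext v
  simp only [mem_filter, mem_biUnion, mem_univ, true_and]
  constructor
  · rintro ⟨⟨j, hj⟩, rfl⟩
    have := hA j hj
    simp only [mem_filter, mem_univ, true_and] at this
    rw [this]
    exact hj
  · intro hv
    have := hA i hv
    simp only [mem_filter, mem_univ, true_and] at this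
    exact ⟨⟨i, hv⟩, this⟩

omit [Fintype V] [DecidableEq V] in
theorem card_eq_sum_prof (τ : V → Fin t) (F : Finset V) : F.card = ∑ i, prof τ F i := by
  unfold prof
  exact card_eq_sum_card_fiberwise (fun _ _ => mem_univ _)

end Q137.NF
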