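import Mathlib
import Pool.Agent.Q137.NF.Defs
import Pool.Agent.Q137.NF.General

/-!
The iterates of the dumbbell complex in terms of four numbers: `p 0` (is vertex number 0 of the
first part there), `p 1` (number of other vertices of the first part), `p 2` (is vertex number 0 of
the second part there), `p 3` (number of other vertices of the second part).
-/

namespace Q137.NF

/-- A predicate on profiles from four predicates on two numbers. -/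
def lift4 (A00 A01 A10 A11 : ℕ → ℕ → Prop) (p : Fin 4 → ℕ) : Prop :=
  (p 0 = 0 ∧ p 2 = 0 ∧ A00 (p 1) (p 3)) ∨ (p 0 = 0 ∧ p 2 = 1 ∧ A01 (p 1) (p 3)) ∨
  (p 0 = 1 ∧ p 2 = 0 ∧ A10 (p 1) (p 3)) ∨ (p 0 = 1 ∧ p 2 = 1 ∧ A11 (p 1) (p 3))

/-- Closed under going down. -/
structure Down4 (N M : ℕ) (A00 A01 A10 A11 : ℕ → ℕ → Prop) : Prop where
  m00 : ∀ a b a' b', a ≤ N → b ≤ M → a' ≤ a → b' ≤ b → A00 a b → A00 a' b'
  m01 : ∀ a b a' b', a ≤ N → b ≤ M → a' ≤ a → b' ≤ b → A01 a b → A01 a' b'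
  m10 : ∀ a b a' b', a ≤ N → b ≤ M → a' ≤ a → b' ≤ b → A10 a b → A10 a' b'
  m11 : ∀ a b a' b', a ≤ N → b ≤ M → a' ≤ a → b' ≤ b → A11 a b → A11 a' b'
  s01 : ∀ a b, a ≤ N → b ≤ M → A01 a b → A00 a b
  s10 : ∀ a b, a ≤ N → b ≤ M → A10 a b → A00 a b
  t01 : ∀ a b, a ≤ N → b ≤ M → A11 a b → A01 a b
  t10 : ∀ a b, a ≤ N → b ≤ M → A11 a b → A10 a b

theorem Down4.downIn {N M : ℕ} {A00 A01 A10 A11 : ℕ → ℕ → Prop}
    (h : Down4 N M A00 A01 A10 A11) : DownIn ![1, N, 1, M] (lift4 A00 A01 A10 A11) := by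
  intro p q hp hq hA
  have p1 : p 1 ≤ N := hp 1
  have p3 : p 3 ≤ M := hp 3
  have q0 : q 0 ≤ p 0 := hq 0
  have q1 : q 1 ≤ p 1 := hq 1
  have q2 : q 2 ≤ p 2 := hq 2
  have q3 : q 3 ≤ p 3 := hq 3
  have k1 : q 1 ≤ N := q1.trans p1
  have k3 : q 3 ≤ M := q3.trans p3
  unfold lift4 at hA ⊢
  rcases hA with ⟨e, f, hA⟩ | ⟨e, f, hA⟩ | ⟨e, f, hA⟩ | ⟨e, f, hA⟩ <;> rw [e] at q0 <;>
    rw [f] at q2
  · exact Or.inl ⟨by omega, by omega, h.m00 _ _ _ _ p1 p3 q1 q3 hA⟩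
  · have hB := h.m01 _ _ _ _ p1 p3 q1 q3 hA
    rcases (show q 2 = 0 ∨ q 2 = 1 by omega) with g | g
    · exact Or.inl ⟨by omega, g, h.s01 _ _ k1 k3 hB⟩
    · exact Or.inr (Or.inl ⟨by omega, g, hB⟩)
  · have hB := h.m10 _ _ _ _ p1 p3 q1 q3 hA
    rcases (show q 0 = 0 ∨ q 0 = 1 by omega) with g | g
    · exact Or.inl ⟨g, by omega, h.s10 _ _ k1 k3 hB⟩
    · exact Or.inr (Or.inr (Or.inl ⟨g, by omega, hB⟩))
  · have hB := h.m11 _ _ _ _ p1 p3 q1 q3 hA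
    rcases (show q 0 = 0 ∨ q 0 = 1 by omega) with g | g <;>
      rcases (show q 2 = 0 ∨ q 2 = 1 by omega) with g' | g'
    · exact Or.inl ⟨g, g', h.s01 _ _ k1 k3 (h.t01 _ _ k1 k3 hB)⟩
    · exact Or.inr (Or.inl ⟨g, g', h.t01 _ _ k1 k3 hB⟩)
    · exact Or.inr (Or.inr (Or.inl ⟨g, g', h.t10 _ _ k1 k3 hB⟩))
    · exact Or.inr (Or.inr (Or.inr ⟨g, g', hB⟩))

theorem step_of {N M : ℕ} {A00 A01 A10 A11 B00 B01 B10 B11 : ℕ → ℕ → Prop}
    (dA : Down4 N M A00 A01 A10 A11) (dB : Down4 N M B00 B01 B10 B11)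
    (x00 : ∀ a b, a ≤ N → b ≤ M → A00 a b → ¬ A10 a b → ¬ A01 a b →
      (a < N → ¬ A00 (a + 1) b) → (b < M → ¬ A00 a (b + 1)) → ¬ B00 a b)
    (x01 : ∀ a b, a ≤ N → b ≤ M → A01 a b → ¬ A11 a b →
      (a < N → ¬ A01 (a + 1) b) → (b < M → ¬ A01 a (b + 1)) → ¬ B01 a b)
    (x10 : ∀ a b, a ≤ N → b ≤ M → A10 a b → ¬ A11 a b →
      (a < N → ¬ A10 (a + 1) b) → (b < M → ¬ A10 a (b + 1)) → ¬ B10 a b)
    (x11 : ∀ a b, a ≤ N → b ≤ M → A11 a b →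
      (a < N → ¬ A11 (a + 1) b) → (b < M → ¬ A11 a (b + 1)) → ¬ B11 a b)
    (n00 : ∀ a b, a ≤ N → b ≤ M → ¬ B00 a b → (0 < a → B00 (a - 1) b) → (0 < b → B00 a (b - 1)) →
      A00 a b ∧ ¬ A10 a b ∧ ¬ A01 a b ∧ (a < N → ¬ A00 (a + 1) b) ∧ (b < M → ¬ A00 a (b + 1)))
    (n01 : ∀ a b, a ≤ N → b ≤ M → ¬ B01 a b → B00 a b → (0 < a → B01 (a - 1) b) →
      (0 < b → B01 a (b - 1)) →
      A01 a b ∧ ¬ A11 a b ∧ (a < N → ¬ A01 (a + 1) b) ∧ (b < M → ¬ A01 a (b + 1)))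
    (n10 : ∀ a b, a ≤ N → b ≤ M → ¬ B10 a b → B00 a b → (0 < a → B10 (a - 1) b) →
      (0 < b → B10 a (b - 1)) →
      A10 a b ∧ ¬ A11 a b ∧ (a < N → ¬ A10 (a + 1) b) ∧ (b < M → ¬ A10 a (b + 1)))
    (n11 : ∀ a b, a ≤ N → b ≤ M → ¬ B11 a b → B01 a b → B10 a b → (0 < a → B11 (a - 1) b) →
      (0 < b → B11 a (b - 1)) →
      A11 a b ∧ (a < N → ¬ A11 (a + 1) b) ∧ (b < M → ¬ A11 a (b + 1))) :
    Step ![1, N, 1, M] (lift4 A00 A01 A10 A11) (lift4 B00 B01 B10 B11) := by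
  -- values of `lift4` for the four possibilities
  have L00 : ∀ (X00 X01 X10 X11 : ℕ → ℕ → Prop) (p : Fin 4 → ℕ), p 0 = 0 → p 2 = 0 →
      (lift4 X00 X01 X10 X11 p ↔ X00 (p 1) (p 3)) := by
    intro X00 X01 X10 X11 p h0 h2; unfold lift4; rw [h0, h2]; simp
  have L01 : ∀ (X00 X01 X10 X11 : ℕ → ℕ → Prop) (p : Fin 4 → ℕ), p 0 = 0 → p 2 = 1 →
      (lift4 X00 X01 X10 X11 p ↔ X01 (p 1) (p 3)) := by
    intro X00 X01 X10 X11 p h0 h2; unfold lift4; rw [h0, h2]; simp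
  have L10 : ∀ (X00 X01 X10 X11 : ℕ → ℕ → Prop) (p : Fin 4 → ℕ), p 0 = 1 → p 2 = 0 →
      (lift4 X00 X01 X10 X11 p ↔ X10 (p 1) (p 3)) := by
    intro X00 X01 X10 X11 p h0 h2; unfold lift4; rw [h0, h2]; simp
  have L11 : ∀ (X00 X01 X10 X11 : ℕ → ℕ → Prop) (p : Fin 4 → ℕ), p 0 = 1 → p 2 = 1 →
      (lift4 X00 X01 X10 X11 p ↔ X11 (p 1) (p 3)) := by
    intro X00 X01 X10 X11 p h0 h2; unfold lift4; rw [h0, h2]; simp
  have u : ∀ (p : Fin 4 → ℕ) (i j : Fin 4) (x : ℕ), i ≠ j → Function.update p i x j = p j :=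
    fun p i j x h => Function.update_of_ne (Ne.symm h) _ _
  have v : ∀ (p : Fin 4 → ℕ) (i : Fin 4) (x : ℕ), Function.update p i x i = x :=
    fun p i x => Function.update_self _ _ _
  have box : ∀ p : Fin 4 → ℕ, p ≤ ![1, N, 1, M] → p 0 ≤ 1 ∧ p 1 ≤ N ∧ p 2 ≤ 1 ∧ p 3 ≤ M :=
    fun p hp => ⟨hp 0, hp 1, hp 2, hp 3⟩
  have n01' : (0 : Fin 4) ≠ 1 := by decide
  have n02' : (0 : Fin 4) ≠ 2 := by decide
  have n03' : (0 : Fin 4) ≠ 3 := by decide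
  have n12' : (1 : Fin 4) ≠ 2 := by decide
  have n13' : (1 : Fin 4) ≠ 3 := by decide
  have n23' : (2 : Fin 4) ≠ 3 := by decide
  refine ⟨dA.downIn, dB.downIn, ?_, ?_⟩
  · intro p hp hA hs
    obtain ⟨h0, h1, h2, h3⟩ := box p hp
    have g0 : p 0 < 1 → ¬ lift4 A00 A01 A10 A11 (Function.update p 0 (p 0 + 1)) := hs 0
    have g1 : p 1 < N → ¬ lift4 A00 A01 A10 A11 (Function.update p 1 (p 1 + 1)) := hs 1
    have g2 : p 2 < 1 → ¬ lift4 A00 A01 A10 A11 (Function.update p 2 (p 2 + 1)) := hs 2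
    have g3 : p 3 < M → ¬ lift4 A00 A01 A10 A11 (Function.update p 3 (p 3 + 1)) := hs 3
    rcases (show p 0 = 0 ∨ p 0 = 1 by omega) with e | e <;>
      rcases (show p 2 = 0 ∨ p 2 = 1 by omega) with f | f
    · rw [L00 _ _ _ _ p e f] at hA ⊢
      rw [L10 _ _ _ _ _ (by rw [v]; omega) (by rw [u _ _ _ _ n02']; exact f),
        u _ _ _ _ n01', u _ _ _ _ n03'] at g0
      rw [L00 _ _ _ _ _ (by rw [u _ _ _ _ n01'.symm]; exact e)
        (by rw [u _ _ _ _ n12']; exact f), v, u _ _ _ _ n13'] at g1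
      rw [L01 _ _ _ _ _ (by rw [u _ _ _ _ n02'.symm]; exact e) (by rw [v]; omega),
        u _ _ _ _ n12'.symm, u _ _ _ _ n23'] at g2
      rw [L00 _ _ _ _ _ (by rw [u _ _ _ _ n03'.symm]; exact e)
        (by rw [u _ _ _ _ n23'.symm]; exact f), v, u _ _ _ _ n13'.symm] at g3
      exact x00 _ _ h1 h3 hA (g0 (by omega)) (g2 (by omega)) g1 g3
    · rw [L01 _ _ _ _ p e f] at hA ⊢
      rw [L11 _ _ _ _ _ (by rw [v]; omega) (by rw [u _ _ _ _ n02']; exact f),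
        u _ _ _ _ n01', u _ _ _ _ n03'] at g0
      rw [L01 _ _ _ _ _ (by rw [u _ _ _ _ n01'.symm]; exact e)
        (by rw [u _ _ _ _ n12']; exact f), v, u _ _ _ _ n13'] at g1
      rw [L01 _ _ _ _ _ (by rw [u _ _ _ _ n03'.symm]; exact e)
        (by rw [u _ _ _ _ n23'.symm]; exact f), v, u _ _ _ _ n13'.symm] at g3
      exact x01 _ _ h1 h3 hA (g0 (by omega)) g1 g3
    · rw [L10 _ _ _ _ p e f] at hA ⊢
      rw [L10 _ _ _ _ _ (by rw [u _ _ _ _ n01'.symm]; exact e)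
        (by rw [u _ _ _ _ n12']; exact f), v, u _ _ _ _ n13'] at g1
      rw [L11 _ _ _ _ _ (by rw [u _ _ _ _ n02'.symm]; exact e) (by rw [v]; omega),
        u _ _ _ _ n12'.symm, u _ _ _ _ n23'] at g2
      rw [L10 _ _ _ _ _ (by rw [u _ _ _ _ n03'.symm]; exact e)
        (by rw [u _ _ _ _ n23'.symm]; exact f), v, u _ _ _ _ n13'.symm] at g3
      exact x10 _ _ h1 h3 hA (g2 (by omega)) g1 g3
    · rw [L11 _ _ _ _ p e f] at hA ⊢
      rw [L11 _ _ _ _ _ (by rw [u _ _ _ _ n01'.symm]; exact e)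
        (by rw [u _ _ _ _ n12']; exact f), v, u _ _ _ _ n13'] at g1
      rw [L11 _ _ _ _ _ (by rw [u _ _ _ _ n03'.symm]; exact e)
        (by rw [u _ _ _ _ n23'.symm]; exact f), v, u _ _ _ _ n13'.symm] at g3
      exact x11 _ _ h1 h3 hA g1 g3
  · intro p hp hB hs
    obtain ⟨h0, h1, h2, h3⟩ := box p hp
    have g0 := hs 0
    have g1 := hs 1
    have g2 := hs 2
    have g3 := hs 3
    have conv : ∀ (P0 P1 P2 P3 : Prop), (lift4 A00 A01 A10 A11 p ∧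
        (p 0 < 1 → ¬ lift4 A00 A01 A10 A11 (Function.update p 0 (p 0 + 1))) ∧
        (p 1 < N → ¬ lift4 A00 A01 A10 A11 (Function.update p 1 (p 1 + 1))) ∧
        (p 2 < 1 → ¬ lift4 A00 A01 A10 A11 (Function.update p 2 (p 2 + 1))) ∧
        (p 3 < M → ¬ lift4 A00 A01 A10 A11 (Function.update p 3 (p 3 + 1)))) →
        (lift4 A00 A01 A10 A11 p ∧ ∀ i : Fin 4, p i < (![1, N, 1, M] : Fin 4 → ℕ) i →
          ¬ lift4 A00 A01 A10 A11 (Function.update p i (p i + 1))) := by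
      intro _ _ _ _ ⟨k, k0, k1, k2, k3⟩
      refine ⟨k, ?_⟩
      intro i hi
      fin_cases i
      · exact k0 hi
      · exact k1 hi
      · exact k2 hi
      · exact k3 hi
    apply conv True True True True
    clear conv hs
    rcases (show p 0 = 0 ∨ p 0 = 1 by omega) with e | e <;>
      rcases (show p 2 = 0 ∨ p 2 = 1 by omega) with f | f
    · rw [L00 _ _ _ _ p e f] at hB
      rw [L00 _ _ _ _ _ (by rw [u _ _ _ _ n01'.symm]; exact e)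
        (by rw [u _ _ _ _ n12']; exact f), v, u _ _ _ _ n13'] at g1
      rw [L00 _ _ _ _ _ (by rw [u _ _ _ _ n03'.symm]; exact e)
        (by rw [u _ _ _ _ n23'.symm]; exact f), v, u _ _ _ _ n13'.symm] at g3
      obtain ⟨k, k0, k2, k1, k3⟩ := n00 _ _ h1 h3 hB g1 g3
      rw [L00 _ _ _ _ p e f]
      refine ⟨k, fun _ => ?_, fun h => ?_, fun _ => ?_, fun h => ?_⟩
      · rw [L10 _ _ _ _ _ (by rw [v]; omega) (by rw [u _ _ _ _ n02']; exact f),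
          u _ _ _ _ n01', u _ _ _ _ n03']
        exact k0
      · rw [L00 _ _ _ _ _ (by rw [u _ _ _ _ n01'.symm]; exact e)
          (by rw [u _ _ _ _ n12']; exact f), v, u _ _ _ _ n13']
        exact k1 h
      · rw [L01 _ _ _ _ _ (by rw [u _ _ _ _ n02'.symm]; exact e) (by rw [v]; omega),
          u _ _ _ _ n12'.symm, u _ _ _ _ n23']
        exact k2
      · rw [L00 _ _ _ _ _ (by rw [u _ _ _ _ n03'.symm]; exact e)
          (by rw [u _ _ _ _ n23'.symm]; exact f), v, u _ _ _ _ n13'.symm]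
        exact k3 h
    · rw [L01 _ _ _ _ p e f] at hB
      rw [L01 _ _ _ _ _ (by rw [u _ _ _ _ n01'.symm]; exact e)
        (by rw [u _ _ _ _ n12']; exact f), v, u _ _ _ _ n13'] at g1
      rw [L00 _ _ _ _ _ (by rw [u _ _ _ _ n02'.symm]; exact e) (by rw [v]; omega),
        u _ _ _ _ n12'.symm, u _ _ _ _ n23'] at g2
      rw [L01 _ _ _ _ _ (by rw [u _ _ _ _ n03'.symm]; exact e)
        (by rw [u _ _ _ _ n23'.symm]; exact f), v, u _ _ _ _ n13'.symm] at g3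
      obtain ⟨k, k0, k1, k3⟩ := n01 _ _ h1 h3 hB (g2 (by omega)) g1 g3
      rw [L01 _ _ _ _ p e f]
      refine ⟨k, fun _ => ?_, fun h => ?_, fun h => ?_, fun h => ?_⟩
      · rw [L11 _ _ _ _ _ (by rw [v]; omega) (by rw [u _ _ _ _ n02']; exact f),
          u _ _ _ _ n01', u _ _ _ _ n03']
        exact k0
      · rw [L01 _ _ _ _ _ (by rw [u _ _ _ _ n01'.symm]; exact e)
          (by rw [u _ _ _ _ n12']; exact f), v, u _ _ _ _ n13']
        exact k1 h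
      · omega
      · rw [L01 _ _ _ _ _ (by rw [u _ _ _ _ n03'.symm]; exact e)
          (by rw [u _ _ _ _ n23'.symm]; exact f), v, u _ _ _ _ n13'.symm]
        exact k3 h
    · rw [L10 _ _ _ _ p e f] at hB
      rw [L00 _ _ _ _ _ (by rw [v]; omega) (by rw [u _ _ _ _ n02']; exact f),
        u _ _ _ _ n01', u _ _ _ _ n03'] at g0
      rw [L10 _ _ _ _ _ (by rw [u _ _ _ _ n01'.symm]; exact e)
        (by rw [u _ _ _ _ n12']; exact f), v, u _ _ _ _ n13'] at g1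
      rw [L10 _ _ _ _ _ (by rw [u _ _ _ _ n03'.symm]; exact e)
        (by rw [u _ _ _ _ n23'.symm]; exact f), v, u _ _ _ _ n13'.symm] at g3
      obtain ⟨k, k2, k1, k3⟩ := n10 _ _ h1 h3 hB (g0 (by omega)) g1 g3
      rw [L10 _ _ _ _ p e f]
      refine ⟨k, fun h => ?_, fun h => ?_, fun _ => ?_, fun h => ?_⟩
      · omega
      · rw [L10 _ _ _ _ _ (by rw [u _ _ _ _ n01'.symm]; exact e)
          (by rw [u _ _ _ _ n12']; exact f), v, u _ _ _ _ n13']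
        exact k1 h
      · rw [L11 _ _ _ _ _ (by rw [u _ _ _ _ n02'.symm]; exact e) (by rw [v]; omega),
          u _ _ _ _ n12'.symm, u _ _ _ _ n23']
        exact k2
      · rw [L10 _ _ _ _ _ (by rw [u _ _ _ _ n03'.symm]; exact e)
          (by rw [u _ _ _ _ n23'.symm]; exact f), v, u _ _ _ _ n13'.symm]
        exact k3 h
    · rw [L11 _ _ _ _ p e f] at hB
      rw [L01 _ _ _ _ _ (by rw [v]; omega) (by rw [u _ _ _ _ n02']; exact f),
        u _ _ _ _ n01', u _ _ _ _ n03'] at g0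
      rw [L11 _ _ _ _ _ (by rw [u _ _ _ _ n01'.symm]; exact e)
        (by rw [u _ _ _ _ n12']; exact f), v, u _ _ _ _ n13'] at g1
      rw [L10 _ _ _ _ _ (by rw [u _ _ _ _ n02'.symm]; exact e) (by rw [v]; omega),
        u _ _ _ _ n12'.symm, u _ _ _ _ n23'] at g2
      rw [L11 _ _ _ _ _ (by rw [u _ _ _ _ n03'.symm]; exact e)
        (by rw [u _ _ _ _ n23'.symm]; exact f), v, u _ _ _ _ n13'.symm] at g3
      obtain ⟨k, k1, k3⟩ := n11 _ _ h1 h3 hB (g0 (by omega)) (g2 (by omega)) g1 g3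
      rw [L11 _ _ _ _ p e f]
      refine ⟨k, fun h => ?_, fun h => ?_, fun h => ?_, fun h => ?_⟩
      · omega
      · rw [L11 _ _ _ _ _ (by rw [u _ _ _ _ n01'.symm]; exact e)
          (by rw [u _ _ _ _ n12']; exact f), v, u _ _ _ _ n13']
        exact k1 h
      · omega
      · rw [L11 _ _ _ _ _ (by rw [u _ _ _ _ n03'.symm]; exact e)
          (by rw [u _ _ _ _ n23'.symm]; exact f), v, u _ _ _ _ n13'.symm]
        exact k3 h

end Q137.NF
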