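import Mathlib
import Pool.Agent.Q137.NF.Steps

/-!
The explicit iterates.
-/

namespace Q137.NF

/-! The iterates number `5` to `n + m + 2` (and number `0` for `c = 1`). -/

def C00 (c a b : ℕ) : Prop := a + b ≤ c ∨ (b = 0 ∧ a ≤ c + 1) ∨ (a = 0 ∧ b ≤ c + 1)
def C01 (M c a b : ℕ) : Prop :=
  (b < M ∧ a + b + 1 ≤ c) ∨ (b = M ∧ a + b + 2 ≤ c) ∨ (a = 0 ∧ b ≤ c ∧ c ≤ M)
def C10 (N c a b : ℕ) : Prop :=
  (a < N ∧ a + b + 1 ≤ c) ∨ (a = N ∧ a + b + 2 ≤ c) ∨ (b = 0 ∧ a ≤ c ∧ c ≤ N)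
def C11 (c a b : ℕ) : Prop := a + b + 3 ≤ c ∨ (c = 1 ∧ a = 0 ∧ b = 0)

def A00 (a b : ℕ) : Prop := a ≤ 1 ∧ b ≤ 1
def A01 (a b : ℕ) : Prop := a ≤ 1 ∧ b = 0
def A10 (a b : ℕ) : Prop := a = 0 ∧ b ≤ 1
def A11 (a b : ℕ) : Prop := a + b < 0

def B00 (a b : ℕ) : Prop := a = 0 ∨ b = 0
def B01 (a _b : ℕ) : Prop := a = 0
def B10 (_a b : ℕ) : Prop := b = 0
def B11 (a b : ℕ) : Prop := a = 0 ∧ b = 0

def D00 (a b : ℕ) : Prop := 0 ≤ a + b
def D01 (M _a b : ℕ) : Prop := b + 1 ≤ M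
def D10 (N a _b : ℕ) : Prop := a + 1 ≤ N
def D11 (a b : ℕ) : Prop := a + b < 0

def E00 (N M a b : ℕ) : Prop := a < N ∨ b < M
def E01 (N M a b : ℕ) : Prop := a < N ∨ b + 1 < M
def E10 (N M a b : ℕ) : Prop := a + 1 < N ∨ b < M
def E11 (N M a b : ℕ) : Prop := a + b + 2 ≤ N + M

def RC (N M c : ℕ) : (Fin 4 → ℕ) → Prop := lift4 (C00 c) (C01 M c) (C10 N c) (C11 c)
def R1 : (Fin 4 → ℕ) → Prop := lift4 A00 A01 A10 A11
def R2 : (Fin 4 → ℕ) → Prop := lift4 B00 B01 B10 B11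
def R3 (N M : ℕ) : (Fin 4 → ℕ) → Prop := lift4 D00 (D01 M) (D10 N) D11
def R4 (N M : ℕ) : (Fin 4 → ℕ) → Prop := lift4 (E00 N M) (E01 N M) (E10 N M) (E11 N M)

theorem downC {N M c : ℕ} (hN : 1 ≤ N) (hM : 1 ≤ M) (hc : 1 ≤ c) :
    Down4 N M (C00 c) (C01 M c) (C10 N c) (C11 c) := by
  constructor <;> simp only [C00, C01, C10, C11] <;> intros <;> omega

theorem down1 {N M : ℕ} : Down4 N M A00 A01 A10 A11 := by
  constructor <;> simp only [A00, A01, A10, A11] <;> intros <;> omega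

theorem down2 {N M : ℕ} : Down4 N M B00 B01 B10 B11 := by
  constructor <;> simp only [B00, B01, B10, B11] <;> intros <;> omega

theorem down3 {N M : ℕ} : Down4 N M D00 (D01 M) (D10 N) D11 := by
  constructor <;> simp only [D00, D01, D10, D11] <;> intros <;> omega

theorem down4 {N M : ℕ} :
    Down4 N M (E00 N M) (E01 N M) (E10 N M) (E11 N M) := by
  constructor <;> simp only [E00, E01, E10, E11] <;> intros <;> omega

theorem step01 {N M : ℕ} (hN : 1 ≤ N) (hM : 1 ≤ M) : Step ![1, N, 1, M] (RC N M 1) R1 := by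
  apply step_of (downC hN hM le_rfl) down1 <;>
    simp only [C00, C01, C10, C11, A00, A01, A10, A11, true_and] <;> intros <;> omega

theorem step12 {N M : ℕ} (hN : 1 ≤ N) (hM : 1 ≤ M) : Step ![1, N, 1, M] R1 R2 := by
  apply step_of down1 down2 <;>
    simp only [B00, B01, B10, B11, A00, A01, A10, A11] <;> intros <;> omega

theorem step23 {N M : ℕ} (hN : 1 ≤ N) (hM : 1 ≤ M) : Step ![1, N, 1, M] R2 (R3 N M) := by
  apply step_of down2 down3 <;>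
    simp only [B00, B01, B10, B11, D00, D01, D10, D11] <;> intros <;> omega

theorem step34 {N M : ℕ} (hN : 1 ≤ N) (hM : 1 ≤ M) : Step ![1, N, 1, M] (R3 N M) (R4 N M) := by
  apply step_of down3 down4 <;>
    simp only [D00, D01, D10, D11, E00, E01, E10, E11] <;> intros <;> omega

theorem step45 {N M : ℕ} (hN : 1 ≤ N) (hM : 1 ≤ M) :
    Step ![1, N, 1, M] (R4 N M) (RC N M (N + M)) := by
  apply step_of down4 (downC hN hM (by omega)) <;>
    simp only [C00, C01, C10, C11, E00, E01, E10, E11] <;> intros <;> omega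

theorem stepC {N M c : ℕ} (hN : 1 ≤ N) (hM : 1 ≤ M) (hc : 1 ≤ c) (hc2 : c + 1 ≤ N + M) :
    Step ![1, N, 1, M] (RC N M (c + 1)) (RC N M c) := by
  apply step_of (downC hN hM (by omega)) (downC hN hM hc) <;> simp only [C00, C01, C10, C11] <;>
    intros <;> omega

end Q137.NF
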