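import Mathlib
import Pool.Agent.Q137.NF.Defs
import Pool.Agent.Q137.NF.General
import Pool.Agent.Q137.NF.Steps2

/-!
The NF-number of the dumbbell graphs.
-/

namespace Q137.NF

open Finset

/-- The type of a vertex. -/
def typ (n m : ℕ) : Fin n ⊕ Fin m → Fin 4
  | .inl i => if (i : ℕ) = 0 then 0 else 1
  | .inr j => if (j : ℕ) = 0 then 2 else 3

theorem card_filter_zero {n : ℕ} (hn : 1 ≤ n) :
    ((univ : Finset (Fin n)).filter (fun i : Fin n => (i : ℕ) = 0)).card = 1 := by
  rw [card_eq_one]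
  refine ⟨⟨0, hn⟩, ?_⟩
  ext i
  simp [Fin.ext_iff]

theorem card_filter_ne_zero {n : ℕ} (hn : 1 ≤ n) :
    ((univ : Finset (Fin n)).filter (fun i : Fin n => ¬ (i : ℕ) = 0)).card = n - 1 := by
  have h := card_filter_zero hn
  have h2 := card_filter_add_card_filter_not (s := (univ : Finset (Fin n)))
    (fun i : Fin n => (i : ℕ) = 0)
  rw [card_univ, Fintype.card_fin, h] at h2
  omega

theorem prof_univ {n m : ℕ} (hn : 1 ≤ n) (hm : 1 ≤ m) :
    prof (typ n m) univ = ![1, n - 1, 1, m - 1] := by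
  have key : ∀ i : Fin 4, prof (typ n m) univ i =
      ∑ x : Fin n, (if (if (x : ℕ) = 0 then (0 : Fin 4) else 1) = i then 1 else 0) +
      ∑ x : Fin m, (if (if (x : ℕ) = 0 then (2 : Fin 4) else 3) = i then 1 else 0) := by
    intro i
    unfold prof
    rw [card_filter, Fintype.sum_sum_type]
    rfl
  have e1 : ∀ (k : ℕ) (a b i : Fin 4), a = i → b ≠ i → ∀ _ : 1 ≤ k,
      ∑ x : Fin k, (if (if (x : ℕ) = 0 then a else b) = i then 1 else 0) = 1 := by
    intro k a b i ha hb hk
    refine Eq.trans ?_ (card_filter_zero hk)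
    rw [card_filter]
    apply sum_congr rfl
    intro x _
    by_cases h : (x : ℕ) = 0
    · rw [if_pos h, if_pos ha, if_pos h]
    · rw [if_neg h, if_neg hb, if_neg h]
  have e2 : ∀ (k : ℕ) (a b i : Fin 4), a ≠ i → b = i → ∀ _ : 1 ≤ k,
      ∑ x : Fin k, (if (if (x : ℕ) = 0 then a else b) = i then 1 else 0) = k - 1 := by
    intro k a b i ha hb hk
    refine Eq.trans ?_ (card_filter_ne_zero hk)
    rw [card_filter]
    apply sum_congr rfl
    intro x _
    by_cases h : (x : ℕ) = 0
    · rw [if_pos h, if_neg ha, if_neg (not_not.2 h)]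
    · rw [if_neg h, if_pos hb, if_pos h]
  have e3 : ∀ (k : ℕ) (a b i : Fin 4), a ≠ i → b ≠ i →
      ∑ x : Fin k, (if (if (x : ℕ) = 0 then a else b) = i then 1 else 0) = 0 := by
    intro k a b i ha hb
    apply sum_eq_zero
    intro x _
    by_cases h : (x : ℕ) = 0
    · rw [if_pos h, if_neg ha]
    · rw [if_neg h, if_neg hb]
  funext i
  rw [key]
  fin_cases i
  · change _ = 1
    rw [e1 _ _ _ _ (by decide) (by decide) hn, e3 _ _ _ _ (by decide) (by decide)]
  · change _ = n - 1
    rw [e2 _ _ _ _ (by decide) (by decide) hn, e3 _ _ _ _ (by decide) (by decide)]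
    rfl
  · change _ = 1
    rw [e3 _ _ _ _ (by decide) (by decide), e1 _ _ _ _ (by decide) (by decide) hm]
  · change _ = m - 1
    rw [e3 _ _ _ _ (by decide) (by decide), e2 _ _ _ _ (by decide) (by decide) hm]
    exact zero_add _

theorem prof_pair {n m : ℕ} {u v : Fin n ⊕ Fin m} (h : u ≠ v) (i : Fin 4) :
    prof (typ n m) {u, v} i =
      (if typ n m u = i then 1 else 0) + (if typ n m v = i then 1 else 0) := by
  unfold prof
  rw [card_filter, sum_pair h]

theorem RC_one_iff {N M : ℕ} (hN : 1 ≤ N) (hM : 1 ≤ M) (p : Fin 4 → ℕ) :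
    RC N M 1 p ↔ (p 0 = 0 ∧ p 2 = 0 ∧ (p 1 + p 3 ≤ 1 ∨ (p 3 = 0 ∧ p 1 ≤ 2) ∨
        (p 1 = 0 ∧ p 3 ≤ 2))) ∨
      (p 0 = 0 ∧ p 2 = 1 ∧ p 1 = 0 ∧ p 3 ≤ 1) ∨ (p 0 = 1 ∧ p 2 = 0 ∧ p 3 = 0 ∧ p 1 ≤ 1) ∨
      (p 0 = 1 ∧ p 2 = 1 ∧ p 1 = 0 ∧ p 3 = 0) := by
  unfold RC lift4 C00 C01 C10 C11
  omega

theorem adj_iff {n m : ℕ} (hn : 2 ≤ n) (hm : 2 ≤ m) {u v : Fin n ⊕ Fin m} (h : u ≠ v) :
    (dumbbell n m).Adj u v ↔ RC (n - 1) (m - 1) 1 (prof (typ n m) {u, v}) := by
  rw [RC_one_iff (by omega) (by omega)]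
  simp only [prof_pair h]
  rcases u with i | i <;> rcases v with j | j
  · have hij : i ≠ j := fun e => h (by rw [e])
    have hij' : (i : ℕ) ≠ j := fun e => hij (Fin.ext e)
    change i ≠ j ↔ _
    by_cases hi : (i : ℕ) = 0 <;> by_cases hj : (j : ℕ) = 0
    · omega
    all_goals simp [typ, hi, hj, hij]
  · change ((i : ℕ) = 0 ∧ (j : ℕ) = 0) ↔ _
    by_cases hi : (i : ℕ) = 0 <;> by_cases hj : (j : ℕ) = 0 <;> simp [typ, hi, hj]
  · change ((j : ℕ) = 0 ∧ (i : ℕ) = 0) ↔ _
    by_cases hi : (i : ℕ) = 0 <;> by_cases hj : (j : ℕ) = 0 <;> simp [typ, hi, hj]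
  · have hij : i ≠ j := fun e => h (by rw [e])
    have hij' : (i : ℕ) ≠ j := fun e => hij (Fin.ext e)
    change i ≠ j ↔ _
    by_cases hi : (i : ℕ) = 0 <;> by_cases hj : (j : ℕ) = 0
    · omega
    all_goals simp [typ, hi, hj, hij]

theorem exists_adj {n m : ℕ} (hn : 2 ≤ n) (hm : 2 ≤ m) (u : Fin n ⊕ Fin m) :
    ∃ v, (dumbbell n m).Adj u v := by
  rcases u with i | i
  · by_cases hi : (i : ℕ) = 0
    · exact ⟨.inl ⟨1, by omega⟩, fun e => by rw [e] at hi; simp at hi⟩
    · exact ⟨.inl ⟨0, by omega⟩, fun e => hi (by rw [e])⟩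
  · by_cases hi : (i : ℕ) = 0
    · exact ⟨.inr ⟨1, by omega⟩, fun e => by rw [e] at hi; simp at hi⟩
    · exact ⟨.inr ⟨0, by omega⟩, fun e => hi (by rw [e])⟩

/-- The complex of the dumbbell graph. -/
theorem graphComplex_dumbbell {n m : ℕ} (hn : 2 ≤ n) (hm : 2 ≤ m) :
    graphComplex (dumbbell n m) = fam (typ n m) (RC (n - 1) (m - 1) 1) := by
  have hdown : DownIn (prof (typ n m) univ) (RC (n - 1) (m - 1) 1) := by
    rw [prof_univ (by omega) (by omega)]
    exact (downC (by omega) (by omega) le_rfl).downIn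
  ext F
  constructor
  · rintro ⟨u, v, huv, hF⟩
    have h1 : F ⊆ {u, v} := by
      intro w hw
      rcases hF w hw with h | h <;> simp [h]
    exact hdown _ _ (prof_le _ _) (prof_mono _ h1) ((adj_iff hn hm huv.ne).1 huv)
  · intro hF
    have hF' : RC (n - 1) (m - 1) 1 (prof (typ n m) F) := hF
    have hc : F.card ≤ 2 := by
      rw [card_eq_sum_prof (typ n m) F, Fin.sum_univ_four]
      rw [RC_one_iff (by omega) (by omega)] at hF'
      omega
    rcases (show F.card = 0 ∨ F.card = 1 ∨ F.card = 2 by omega) with h | h | h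
    · rw [card_eq_zero] at h
      subst h
      obtain ⟨v, hv⟩ := exists_adj hn hm (.inl ⟨0, by omega⟩)
      exact ⟨_, v, hv, fun w hw => absurd hw (notMem_empty w)⟩
    · obtain ⟨u, rfl⟩ := card_eq_one.1 h
      obtain ⟨v, hv⟩ := exists_adj hn hm u
      exact ⟨u, v, hv, fun w hw => Or.inl (mem_singleton.1 hw)⟩
    · obtain ⟨u, v, huv, rfl⟩ := card_eq_two.1 h
      refine ⟨u, v, (adj_iff hn hm huv).2 hF', fun w hw => ?_⟩
      simpa using hw

theorem step_to_delta {n m : ℕ} (hn : 1 ≤ n) (hm : 1 ≤ m) {R R' : (Fin 4 → ℕ) → Prop}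
    (h : Step ![1, n - 1, 1, m - 1] R R') :
    delta (fam (typ n m) R) = fam (typ n m) R' := by
  apply delta_fam
  rw [prof_univ hn hm]
  exact h

/-- The predicate of the `k`-th iterate. -/
def RK (n m k : ℕ) : (Fin 4 → ℕ) → Prop :=
  if k = 0 then RC (n - 1) (m - 1) 1 else if k = 1 then R1 else if k = 2 then R2 else
    if k = 3 then R3 (n - 1) (m - 1) else if k = 4 then R4 (n - 1) (m - 1) else
      RC (n - 1) (m - 1) (n + m + 3 - k)

theorem iterate_eq {n m : ℕ} (hn : 2 ≤ n) (hm : 2 ≤ m) (k : ℕ) (hk : k ≤ n + m + 2) :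
    delta^[k] (graphComplex (dumbbell n m)) = fam (typ n m) (RK n m k) := by
  induction k with
  | zero =>
    rw [Function.iterate_zero, id, graphComplex_dumbbell hn hm]
    rfl
  | succ k ih =>
    rw [Function.iterate_succ_apply', ih (by omega)]
    apply step_to_delta (by omega) (by omega)
    have hN : 1 ≤ n - 1 := by omega
    have hM : 1 ≤ m - 1 := by omega
    rcases (show k = 0 ∨ k = 1 ∨ k = 2 ∨ k = 3 ∨ k = 4 ∨ 5 ≤ k by omega) with
      h | h | h | h | h | h
    · subst h; exact step01 hN hM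
    · subst h; exact step12 hN hM
    · subst h; exact step23 hN hM
    · subst h; exact step34 hN hM
    · subst h
      have h2 := step45 hN hM
      have h3 : n - 1 + (m - 1) = n + m + 3 - 5 := by omega
      rw [h3] at h2
      exact h2
    · have h2 : RK n m k = RC (n - 1) (m - 1) (n + m + 2 - k + 1) := by
        unfold RK
        rw [if_neg (by omega), if_neg (by omega), if_neg (by omega), if_neg (by omega),
          if_neg (by omega)]
        congr 1
        omega
      have h3 : RK n m (k + 1) = RC (n - 1) (m - 1) (n + m + 2 - k) := by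
        unfold RK
        rw [if_neg (by omega), if_neg (by omega), if_neg (by omega), if_neg (by omega),
          if_neg (by omega)]
        congr 1
        omega
      rw [h2, h3]
      exact stepC hN hM (by omega) (by omega)

theorem card_face_le_two {n m : ℕ} (hn : 2 ≤ n) (hm : 2 ≤ m) {F : Finset (Fin n ⊕ Fin m)}
    (hF : F ∈ graphComplex (dumbbell n m)) : F.card ≤ 2 := by
  obtain ⟨u, v, _, hF⟩ := hF
  have h1 : F ⊆ {u, v} := by
    intro w hw
    rcases hF w hw with h | h <;> simp [h]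
  exact (card_le_card h1).trans Finset.card_le_two

/-- A face with three vertices in the iterates `2, ..., n + m + 1`. -/
theorem exists_big {n m : ℕ} (hn : 2 ≤ n) (hm : 2 ≤ m) (h5 : 5 ≤ n + m) {k : ℕ} (hk : 2 ≤ k)
    (hk2 : k ≤ n + m + 1) :
    ∃ F ∈ fam (typ n m) (RK n m k), F.card = 3 := by
  have main : ∀ e a f b : ℕ, e ≤ 1 → a ≤ n - 1 → f ≤ 1 → b ≤ m - 1 → e + a + f + b = 3 →
      RK n m k ![e, a, f, b] → ∃ F ∈ fam (typ n m) (RK n m k), F.card = 3 := by
    intro e a f b he ha hf hb hs hR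
    obtain ⟨F, hF⟩ := exists_prof (typ n m) ![e, a, f, b] (by
      rw [prof_univ (by omega) (by omega)]
      intro i
      fin_cases i
      · exact he
      · exact ha
      · exact hf
      · exact hb)
    refine ⟨F, ?_, ?_⟩
    · rw [mem_fam, hF]
      exact hR
    · rw [card_eq_sum_prof (typ n m) F, hF, Fin.sum_univ_four]
      exact hs
  have hN : 1 ≤ n - 1 := by omega
  have hM : 1 ≤ m - 1 := by omega
  rcases (show k = 2 ∨ k = 3 ∨ k = 4 ∨ 5 ≤ k by omega) with h | h | h | h
  · subst h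
    by_cases hn3 : 3 ≤ n
    · refine main 1 2 0 0 le_rfl (by omega) (by omega) (by omega) rfl ?_
      change R2 _
      right; right; left
      exact ⟨rfl, rfl, rfl⟩
    · refine main 0 0 1 2 (by omega) (by omega) le_rfl (by omega) rfl ?_
      change R2 _
      right; left
      exact ⟨rfl, rfl, rfl⟩
  · subst h
    have hR : ∀ a b, RK n m 3 ![0, a, 0, b] := by
      intro a b
      change R3 _ _ _
      left
      exact ⟨rfl, rfl, Nat.zero_le _⟩
    by_cases hn3 : 3 ≤ n
    · exact main 0 2 0 1 (by omega) (by omega) (by omega) (by omega) rfl (hR _ _)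
    · exact main 0 1 0 2 (by omega) (by omega) (by omega) (by omega) rfl (hR _ _)
  · subst h
    by_cases hn3 : 3 ≤ n
    · refine main 0 1 1 1 (by omega) (by omega) (by omega) (by omega) rfl ?_
      change R4 _ _ _
      right; left
      refine ⟨rfl, rfl, ?_⟩
      change (1 : ℕ) < n - 1 ∨ _
      left
      omega
    · refine main 0 0 1 2 (by omega) (by omega) (by omega) (by omega) rfl ?_
      change R4 _ _ _
      right; left
      refine ⟨rfl, rfl, ?_⟩
      change (0 : ℕ) < n - 1 ∨ _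
      left
      omega
  · have hRK : RK n m k = RC (n - 1) (m - 1) (n + m + 3 - k) := by
      unfold RK
      rw [if_neg (by omega), if_neg (by omega), if_neg (by omega), if_neg (by omega),
        if_neg (by omega)]
    have hc : 2 ≤ n + m + 3 - k := by omega
    rcases (show n + m + 3 - k = 2 ∨ 3 ≤ n + m + 3 - k by omega) with h3 | h3
    · by_cases hn3 : 3 ≤ n
      · refine main 1 2 0 0 (by omega) (by omega) (by omega) (by omega) rfl ?_
        rw [hRK, h3]
        right; right; left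
        refine ⟨rfl, rfl, ?_⟩
        right; right
        exact ⟨rfl, le_rfl, by omega⟩
      · refine main 0 0 1 2 (by omega) (by omega) (by omega) (by omega) rfl ?_
        rw [hRK, h3]
        right; left
        refine ⟨rfl, rfl, ?_⟩
        right; right
        exact ⟨rfl, le_rfl, by omega⟩
    · by_cases hn3 : 3 ≤ n
      · refine main 0 2 0 1 (by omega) (by omega) (by omega) (by omega) rfl ?_
        rw [hRK]
        left
        exact ⟨rfl, rfl, Or.inl h3⟩
      · refine main 0 1 0 2 (by omega) (by omega) (by omega) (by omega) rfl ?_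
        rw [hRK]
        left
        exact ⟨rfl, rfl, Or.inl h3⟩

/-- The faces with two vertices of the first iterate have one vertex on each side. -/
theorem isLeft_ne {n m : ℕ} {u v : Fin n ⊕ Fin m} (h : u ≠ v)
    (hR : R1 (prof (typ n m) {u, v})) : u.isLeft ≠ v.isLeft := by
  unfold R1 lift4 A00 A01 A10 A11 at hR
  simp only [prof_pair h] at hR
  rcases u with i | i <;> rcases v with j | j
  · exfalso
    by_cases hi : (i : ℕ) = 0 <;> by_cases hj : (j : ℕ) = 0
    · exact h (by rw [Fin.ext (hi.trans hj.symm)])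
    all_goals simp [typ, hi, hj] at hR
  · simp
  · simp
  · exfalso
    by_cases hi : (i : ℕ) = 0 <;> by_cases hj : (j : ℕ) = 0
    · exact h (by rw [Fin.ext (hi.trans hj.symm)])
    all_goals simp [typ, hi, hj] at hR

/-- The dumbbell graph has a triangle. -/
theorem exists_triangle {n m : ℕ} (h5 : 3 ≤ n ∨ 3 ≤ m) :
    ∃ u v w : Fin n ⊕ Fin m, (dumbbell n m).Adj u v ∧ (dumbbell n m).Adj v w ∧
      (dumbbell n m).Adj u w := by
  rcases h5 with h | h
  · refine ⟨.inl ⟨0, by omega⟩, .inl ⟨1, by omega⟩, .inl ⟨2, by omega⟩, ?_, ?_, ?_⟩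
    · exact fun e => by simp at e
    · exact fun e => by simp at e
    · exact fun e => by simp at e
  · refine ⟨.inr ⟨0, by omega⟩, .inr ⟨1, by omega⟩, .inr ⟨2, by omega⟩, ?_, ?_, ?_⟩
    · exact fun e => by simp at e
    · exact fun e => by simp at e
    · exact fun e => by simp at e

theorem not_iso_one {n m : ℕ} (h5 : 3 ≤ n ∨ 3 ≤ m) :
    ¬ Iso (fam (typ n m) R1) (graphComplex (dumbbell n m)) := by
  rintro ⟨π, hπ⟩
  obtain ⟨u, v, w, huv, hvw, huw⟩ := exists_triangle (n := n) (m := m) h5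
  have key : ∀ x y : Fin n ⊕ Fin m, (dumbbell n m).Adj x y →
      (π.symm x).isLeft ≠ (π.symm y).isLeft := by
    intro x y hxy
    have hne : π.symm x ≠ π.symm y := fun e => hxy.ne (π.symm.injective e)
    apply isLeft_ne hne
    have h1 : ({π.symm x, π.symm y} : Finset (Fin n ⊕ Fin m)) ∈ fam (typ n m) R1 := by
      rw [hπ]
      refine ⟨x, y, hxy, fun z hz => ?_⟩
      simp only [map_insert, map_singleton, Equiv.coe_toEmbedding, Equiv.apply_symm_apply,
        mem_insert, mem_singleton] at hz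
      exact hz
    exact h1
  have k1 := key u v huv
  have k2 := key v w hvw
  have k3 := key u w huw
  revert k1 k2 k3
  cases (π.symm u).isLeft <;> cases (π.symm v).isLeft <;> cases (π.symm w).isLeft <;> simp

theorem NFnumber_dumbbell {n m : ℕ} (hn : 2 ≤ n) (hm : 2 ≤ m) (h22 : ¬ (n = 2 ∧ m = 2)) :
    NFnumber (graphComplex (dumbbell n m)) = n + m + 2 := by
  have h5 : 5 ≤ n + m := by omega
  have hmem : n + m + 2 ∈ {q : ℕ | 0 < q ∧
      Iso (delta^[q] (graphComplex (dumbbell n m))) (graphComplex (dumbbell n m))} := by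
    refine ⟨by omega, Equiv.refl _, fun F => ?_⟩
    have h1 : delta^[n + m + 2] (graphComplex (dumbbell n m)) = graphComplex (dumbbell n m) := by
      rw [iterate_eq hn hm _ le_rfl, graphComplex_dumbbell hn hm]
      unfold RK
      rw [if_neg (by omega), if_neg (by omega), if_neg (by omega), if_neg (by omega),
        if_neg (by omega)]
      have h2 : n + m + 3 - (n + m + 2) = 1 := by omega
      rw [h2]
    rw [h1]
    have h3 : F.map (Equiv.refl (Fin n ⊕ Fin m)).toEmbedding = F := by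
      ext x
      simp
    rw [h3]
  apply le_antisymm (Nat.sInf_le hmem)
  have hinf := Nat.sInf_mem (s := {q : ℕ | 0 < q ∧
      Iso (delta^[q] (graphComplex (dumbbell n m))) (graphComplex (dumbbell n m))}) ⟨_, hmem⟩
  by_contra hcon
  push Not at hcon
  change NFnumber (graphComplex (dumbbell n m)) < n + m + 2 at hcon
  change 0 < NFnumber (graphComplex (dumbbell n m)) ∧ Iso (delta^[NFnumber
    (graphComplex (dumbbell n m))] (graphComplex (dumbbell n m)))
    (graphComplex (dumbbell n m)) at hinf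
  generalize NFnumber (graphComplex (dumbbell n m)) = q at hinf hcon
  obtain ⟨hq, hiso⟩ := hinf
  rw [iterate_eq hn hm q (by omega)] at hiso
  rcases (show q = 1 ∨ 2 ≤ q by omega) with h | h
  · subst h
    exact not_iso_one (by omega) hiso
  · obtain ⟨F, hF, hc⟩ := exists_big hn hm h5 h (by omega)
    obtain ⟨π, hπ⟩ := hiso
    have h1 := card_face_le_two hn hm ((hπ F).1 hF)
    rw [card_map, hc] at h1
    omega

end Q137.NF
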